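import Mathlib

/-!
# P-characters (MP_8e3030_al): perfect normal subgroups and maximal subgroups of small index
-/

set_option autoImplicit false

namespace Pool.Agent.K1H12.PC

open Module

/-- irreducible representation -/
def IsIrr {G V : Type} [Group G] [AddCommGroup V] [Module ℂ V] (ρ : Representation ℂ G V) : Prop :=
  Nontrivial V ∧ ∀ W : Submodule ℂ V, (∀ g, ∀ w ∈ W, ρ g w ∈ W) → W = ⊥ ∨ W = ⊤

/-- a maximal subgroup has a nonzero fixed vector -/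
def IsP {G V : Type} [Group G] [AddCommGroup V] [Module ℂ V] (ρ : Representation ℂ G V) : Prop :=
  ∃ H : Subgroup G, IsCoatom H ∧ ∃ v : V, v ≠ 0 ∧ ∀ h ∈ H, ρ h v = v

/-- induced from a one-dimensional representation of a subgroup -/
def IsMonomial {G V : Type} [Group G] [AddCommGroup V] [Module ℂ V]
    (ρ : Representation ℂ G V) : Prop :=
  ∃ (U : Subgroup G) (v : V), v ≠ 0 ∧ (∀ u ∈ U, ∃ c : ℂ, ρ u v = c • v) ∧
    finrank ℂ V = U.index ∧ Submodule.span ℂ (Set.range fun g => ρ g v) = ⊤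

/-- the permutation representation on functions -/
noncomputable def perm (Q X : Type) [Group Q] [MulAction Q X] : Representation ℂ Q (X → ℂ) where
  toFun g := LinearMap.funLeft ℂ ℂ (fun x => g⁻¹ • x)
  map_one' := by
    ext f x
    simp [LinearMap.funLeft_apply]
  map_mul' g h := by
    ext f x
    simp [LinearMap.funLeft_apply, mul_smul]

theorem perm_apply {Q X : Type} [Group Q] [MulAction Q X] (g : Q) (f : X → ℂ) (x : X) :
    perm Q X g f x = f (g⁻¹ • x) := rfl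

theorem eqproj {Q F : Type} [Group Q] [Finite Q] [AddCommGroup F] [Module ℂ F]
    (ρ : Representation ℂ Q F) (W : Submodule ℂ F) (hW : ∀ g, ∀ w ∈ W, ρ g w ∈ W) :
    ∃ P : F →ₗ[ℂ] F, (∀ f, P f ∈ W) ∧ (∀ w ∈ W, P w = w) ∧ ∀ g f, P (ρ g f) = ρ g (P f) := by
  classical
  cases nonempty_fintype Q
  obtain ⟨p, hp⟩ := W.subtype.exists_leftInverse_of_injective W.ker_subtype
  have hcard : (Fintype.card Q : ℂ) ≠ 0 := by
    exact_mod_cast Fintype.card_ne_zero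
  refine ⟨(Fintype.card Q : ℂ)⁻¹ • ∑ g : Q, ρ g ∘ₗ W.subtype ∘ₗ p ∘ₗ ρ g⁻¹, ?_, ?_, ?_⟩
  · intro f
    rw [LinearMap.smul_apply, LinearMap.sum_apply]
    refine W.smul_mem _ (W.sum_mem fun g _ => ?_)
    exact hW g _ (p (ρ g⁻¹ f)).2
  · intro w hw
    rw [LinearMap.smul_apply, LinearMap.sum_apply]
    have h1 : ∀ g : Q, (ρ g ∘ₗ W.subtype ∘ₗ p ∘ₗ ρ g⁻¹) w = w := by
      intro g
      have h2 : p (ρ g⁻¹ w) = ⟨ρ g⁻¹ w, hW g⁻¹ w hw⟩ := by
        have := LinearMap.congr_fun hp ⟨ρ g⁻¹ w, hW g⁻¹ w hw⟩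
        simpa using this
      simp only [LinearMap.comp_apply, h2, Submodule.subtype_apply]
      rw [← Module.End.mul_apply, ← map_mul, mul_inv_cancel, map_one, Module.End.one_apply]
    rw [Finset.sum_congr rfl fun g _ => h1 g, Finset.sum_const, Finset.card_univ,
      ← Nat.cast_smul_eq_nsmul ℂ, smul_smul, inv_mul_cancel₀ hcard, one_smul]
  · intro h f
    rw [LinearMap.smul_apply, LinearMap.smul_apply, map_smul, LinearMap.sum_apply,
      LinearMap.sum_apply, map_sum]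
    congr 1
    rw [← Equiv.sum_comp (Equiv.mulLeft h)]
    refine Finset.sum_congr rfl fun g _ => ?_
    simp only [LinearMap.comp_apply, Equiv.coe_mulLeft]
    rw [← Module.End.mul_apply (ρ (h * g)⁻¹), ← map_mul, mul_inv_rev, mul_assoc,
      inv_mul_cancel, mul_one, ← Module.End.mul_apply (ρ h), ← map_mul]

theorem minsub {Q F : Type} [Group Q] [Finite Q] [AddCommGroup F] [Module ℂ F]
    [FiniteDimensional ℂ F] (ρ : Representation ℂ Q F) (H : Subgroup Q) (E : Submodule ℂ F)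
    (hE : ∀ g, ∀ w ∈ E, ρ g w ∈ E) (f0 : F) (hf0 : f0 ∈ E) (hf : f0 ≠ 0)
    (hH : ∀ h ∈ H, ρ h f0 = f0) :
    ∃ V : Submodule ℂ F, V ≤ E ∧ (∀ g, ∀ w ∈ V, ρ g w ∈ V) ∧
      (∃ f ∈ V, f ≠ 0 ∧ ∀ h ∈ H, ρ h f = f) ∧
      ∀ W ≤ V, (∀ g, ∀ w ∈ W, ρ g w ∈ W) → W = ⊥ ∨ W = V := by
  classical
  let S : Set (Submodule ℂ F) := {V | V ≤ E ∧ (∀ g, ∀ w ∈ V, ρ g w ∈ V) ∧
      (∃ f ∈ V, f ≠ 0 ∧ ∀ h ∈ H, ρ h f = f)}
  have hS : S.Nonempty := ⟨E, le_rfl, hE, f0, hf0, hf, hH⟩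
  obtain ⟨V, hV, hmin⟩ := WellFounded.has_min (measure fun V : Submodule ℂ F => finrank ℂ V).wf S hS
  obtain ⟨hVE, hVi, f, hfV, hf1, hfH⟩ := hV
  refine ⟨V, hVE, hVi, ⟨f, hfV, hf1, hfH⟩, fun W hWV hWi => ?_⟩
  by_contra hcon
  push Not at hcon
  obtain ⟨hW0, hW1⟩ := hcon
  obtain ⟨P, hP1, hP2, hP3⟩ := eqproj ρ W hWi
  by_cases hPf : P f = 0
  · -- the kernel
    have hlt : V ⊓ LinearMap.ker P < V := by
      refine lt_of_le_of_ne inf_le_left fun he => ?_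
      apply hW0
      rw [Submodule.eq_bot_iff]
      intro w hw
      have h1 : w ∈ V ⊓ LinearMap.ker P := by
        rw [he]
        exact hWV hw
      have h2 : P w = 0 := h1.2
      rw [← hP2 w hw, h2]
    refine hmin (V ⊓ LinearMap.ker P) ⟨inf_le_left.trans hVE, ?_, f, ⟨hfV, hPf⟩, hf1, hfH⟩
      (Submodule.finrank_lt_finrank_of_lt hlt)
    rintro g w ⟨hw1, hw2⟩
    refine ⟨hVi g w hw1, ?_⟩
    have : P w = 0 := hw2
    show P (ρ g w) = 0
    rw [hP3, this, map_zero]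
  · refine hmin W ⟨hWV.trans hVE, hWi, P f, hP1 f, hPf, fun h hh => ?_⟩
      (Submodule.finrank_lt_finrank_of_lt (lt_of_le_of_ne hWV hW1))
    rw [← hP3, hfH h hh]

end Pool.Agent.K1H12.PC
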