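import Pool.Agent.K1H12.PC.Main

/-!
# P-characters (MP_8e3030_al): main theorem
-/

set_option autoImplicit false

namespace Pool.Agent.K1H12.PC

open Module
open scoped commutatorElement

/-- subrepresentation -/
noncomputable def sub {Q F : Type} [Group Q] [AddCommGroup F] [Module ℂ F]
    (ρ : Representation ℂ Q F) (V : Submodule ℂ F) (hV : ∀ g, ∀ w ∈ V, ρ g w ∈ V) :
    Representation ℂ Q V where
  toFun g := (ρ g).restrict (hV g)
  map_one' := by
    ext x
    simp
  map_mul' g h := by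
    ext x
    simp

theorem sub_coe {Q F : Type} [Group Q] [AddCommGroup F] [Module ℂ F]
    (ρ : Representation ℂ Q F) (V : Submodule ℂ F) (hV : ∀ g, ∀ w ∈ V, ρ g w ∈ V) (g : Q) (w : V) :
    ((sub ρ V hV g w : V) : F) = ρ g w := rfl

theorem fixed_of_eigen {Q F : Type} [Group Q] [AddCommGroup F] [Module ℂ F]
    (ρ : Representation ℂ Q F) (N : Subgroup Q) (hN : ⁅N, N⁆ = N) (v : F)
    (he : ∀ n ∈ N, ∃ c : ℂ, ρ n v = c • v) : ∀ n ∈ N, ρ n v = v := by
  let K : Subgroup Q :=
    { carrier := {g | ρ g v = v}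
      one_mem' := by simp
      mul_mem' := by
        intro a b ha hb
        simp only [Set.mem_ofPred_eq] at ha hb ⊢
        rw [map_mul, Module.End.mul_apply, hb, ha]
      inv_mem' := by
        intro a ha
        simp only [Set.mem_ofPred_eq] at ha ⊢
        conv_lhs => rw [← ha]
        rw [← Module.End.mul_apply, ← map_mul, inv_mul_cancel, map_one, Module.End.one_apply] }
  have hK : N ≤ K := by
    conv_lhs => rw [← hN]
    rw [Subgroup.commutator_le]
    intro a ha b hb
    obtain ⟨c, hc⟩ := he a ha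
    obtain ⟨d, hd⟩ := he b hb
    obtain ⟨e, hee⟩ := he (b * a)⁻¹ (N.inv_mem (N.mul_mem hb ha))
    show ρ ⁅a, b⁆ v = v
    have h1 : ρ (a * b) v = ρ (b * a) v := by
      rw [map_mul, map_mul, Module.End.mul_apply, Module.End.mul_apply, hc, hd, map_smul,
        map_smul, hc, hd, smul_smul, smul_smul, mul_comm]
    have h2 : ⁅a, b⁆ = (a * b) * (b * a)⁻¹ := by
      rw [commutatorElement_def]
      group
    rw [h2, map_mul, Module.End.mul_apply, hee, map_smul, h1, ← map_smul, ← hee,
      ← Module.End.mul_apply, ← map_mul, mul_inv_cancel, map_one, Module.End.one_apply]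
  exact fun n hn => hK hn

theorem core {G Q : Type} [Group G] [Group Q] [Finite G] [Finite Q] (π : G →* Q)
    (hπ : Function.Surjective π)
    (hG : ∀ (V : Type) [AddCommGroup V] [Module ℂ V] [FiniteDimensional ℂ V]
      (ρ : Representation ℂ G V), IsIrr ρ → IsP ρ → IsMonomial ρ)
    (N : Subgroup Q) [N.Normal] (hN : ⁅N, N⁆ = N) (m : ℕ)
    (hm : ∀ T : Subgroup Q, T < N → m ≤ T.relIndex N)
    (H : Subgroup Q) (hH : IsCoatom H) (hNH : ¬ N ≤ H) : 2 * m < H.index := by
  classical
  let S : Set (Subgroup Q) := {K | IsCoatom K ∧ ¬ N ≤ K}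
  obtain ⟨H', ⟨hc, hn⟩, hmin⟩ :=
    WellFounded.has_min (measure fun K : Subgroup Q => K.index).wf S ⟨H, hH, hNH⟩
  refine lt_of_lt_of_le ?_ (not_lt.1 (hmin H ⟨hH, hNH⟩))
  clear hH hNH H
  let _ : Fintype (Q ⧸ H') := Fintype.ofFinite _
  have hidx : H'.index = Fintype.card (Q ⧸ H') := by
    rw [Subgroup.index, Nat.card_eq_fintype_card]
  have hh0 : (Fintype.card (Q ⧸ H') : ℂ) ≠ 0 := by
    exact_mod_cast Fintype.card_ne_zero
  set φ : ((Q ⧸ H') → ℂ) →ₗ[ℂ] ℂ := ∑ x, LinearMap.proj x with hφ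
  have hφa : ∀ f, φ f = ∑ x, f x := by
    intro f
    simp [hφ]
  set E : Submodule ℂ ((Q ⧸ H') → ℂ) := LinearMap.ker φ with hE
  have hEmem : ∀ f, f ∈ E ↔ ∑ x, f x = 0 := by
    intro f
    rw [hE, LinearMap.mem_ker, hφa]
  have hEi : ∀ g : Q, ∀ w ∈ E, perm Q (Q ⧸ H') g w ∈ E := by
    intro g w hw
    rw [hEmem] at hw ⊢
    rw [← hw]
    exact Equiv.sum_comp (MulAction.toPerm g⁻¹) w
  set o : Q ⧸ H' := ((1 : Q) : Q ⧸ H') with ho
  have hoH : ∀ h ∈ H', h • o = o := by
    intro h hh
    rw [ho, MulAction.Quotient.smul_mk, smul_eq_mul, mul_one]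
    exact QuotientGroup.eq.2 (by simpa using H'.inv_mem hh)
  have hoH' : ∀ h ∈ H', ∀ x : Q ⧸ H', h⁻¹ • x = o ↔ x = o := by
    intro h hh x
    constructor
    · intro h1
      have h2 := congrArg (fun y => h • y) h1
      simp only [smul_inv_smul] at h2
      rw [h2, hoH h hh]
    · rintro rfl
      exact hoH _ (H'.inv_mem hh)
  set f0 : (Q ⧸ H') → ℂ := fun x => (if x = o then 1 else 0) - (Fintype.card (Q ⧸ H') : ℂ)⁻¹
    with hf0
  have hf0E : f0 ∈ E := by
    rw [hEmem, hf0]
    simp only [Finset.sum_sub_distrib, Finset.sum_ite_eq', Finset.mem_univ, if_true,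
      Finset.sum_const, Finset.card_univ, nsmul_eq_mul]
    rw [mul_inv_cancel₀ hh0, sub_self]
  have hH'top : H' ≠ ⊤ := hc.1
  have hf0n : f0 ≠ 0 := by
    intro h1
    have h2 := congrFun h1 o
    simp only [hf0, if_true, Pi.zero_apply] at h2
    have h3 : (Fintype.card (Q ⧸ H') : ℂ) = 1 := by
      have h4 : (Fintype.card (Q ⧸ H') : ℂ)⁻¹ = 1 := (sub_eq_zero.1 h2).symm
      rw [← inv_inv (Fintype.card (Q ⧸ H') : ℂ), h4, inv_one]
    apply hH'top
    rw [← Subgroup.index_eq_one, hidx]
    exact_mod_cast h3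
  have hf0H : ∀ h ∈ H', perm Q (Q ⧸ H') h f0 = f0 := by
    intro h hh
    funext x
    rw [perm_apply, hf0]
    simp only [hoH' h hh x]
  obtain ⟨V, hVE, hVi, ⟨f, hfV, hf1, hfH⟩, hVmin⟩ :=
    minsub (perm Q (Q ⧸ H')) H' E hEi f0 hf0E hf0n hf0H
  set ρ : Representation ℂ Q V := sub (perm Q (Q ⧸ H')) V hVi with hρ
  have hirr : IsIrr (ρ.comp π : Representation ℂ G V) := by
    refine ⟨⟨⟨f, hfV⟩, 0, fun h => hf1 (congrArg Subtype.val h)⟩, fun W hW => ?_⟩
    have hWi : ∀ g : Q, ∀ w ∈ W.map V.subtype, perm Q (Q ⧸ H') g w ∈ W.map V.subtype := by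
      rintro g _ ⟨w, hw, rfl⟩
      obtain ⟨g', rfl⟩ := hπ g
      exact ⟨_, hW g' w hw, rfl⟩
    have hWV : W.map V.subtype ≤ V := by
      rintro _ ⟨w, hw, rfl⟩
      exact w.2
    rcases hVmin _ hWV hWi with h | h
    · left
      rw [Submodule.eq_bot_iff]
      intro w hw
      have h1 : (w : (Q ⧸ H') → ℂ) ∈ W.map V.subtype := ⟨w, hw, rfl⟩
      rw [h, Submodule.mem_bot] at h1
      exact Subtype.ext h1
    · right
      rw [Submodule.eq_top_iff']
      intro w
      have h1 : (w : (Q ⧸ H') → ℂ) ∈ W.map V.subtype := by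
        rw [h]
        exact w.2
      obtain ⟨w', hw', he⟩ := h1
      have : w' = w := Subtype.ext he
      rwa [← this]
  have hcom : IsCoatom (H'.comap π) := by
    refine ⟨fun h => hH'top ?_, fun L hL => ?_⟩
    · rw [← Subgroup.map_comap_eq_self_of_surjective hπ H', h,
        Subgroup.map_top_of_surjective π hπ]
    · have h1 : H' < L.map π := by
        refine lt_of_le_of_ne ?_ ?_
        · rw [← Subgroup.map_comap_eq_self_of_surjective hπ H']
          exact Subgroup.map_mono hL.le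
        · intro he
          apply hL.ne
          apply le_antisymm hL.le
          rw [he]
          exact Subgroup.le_comap_map π L
      have h2 := hc.2 _ h1
      have h3 : π.ker ≤ L := by
        refine le_trans ?_ hL.le
        exact Subgroup.ker_le_comap π H'
      rw [← Subgroup.comap_map_eq_self h3, h2, Subgroup.comap_top]
  have hP : IsP (ρ.comp π : Representation ℂ G V) := by
    refine ⟨H'.comap π, hcom, ⟨f, hfV⟩, fun h => hf1 (congrArg Subtype.val h), fun h hh => ?_⟩
    exact Subtype.ext (hfH _ hh)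
  obtain ⟨U, v, hv, heig, hdim, -⟩ := hG V (ρ.comp π) hirr hP
  -- the dimension
  have hElt : E < ⊤ := by
    refine lt_of_le_of_ne le_top fun h => ?_
    have h1 : (fun x : Q ⧸ H' => if x = o then (1 : ℂ) else 0) ∈ E := by
      rw [h]
      trivial
    rw [hEmem] at h1
    simp at h1
  have hlt : finrank ℂ V < H'.index := by
    have h1 : finrank ℂ V ≤ finrank ℂ E := Submodule.finrank_mono hVE
    have h2 : finrank ℂ E < finrank ℂ ((Q ⧸ H') → ℂ) := Submodule.finrank_lt hElt.ne
    rw [Module.finrank_fintype_fun_eq_card] at h2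
    omega
  have hUi : (U.map π).index ≤ finrank ℂ V := by
    rw [hdim]
    exact Nat.le_of_dvd (Nat.pos_of_ne_zero Subgroup.index_ne_zero_of_finite)
      (Subgroup.index_map_dvd U hπ)
  have hNU : ¬ N ≤ U.map π := by
    intro hle
    have he : ∀ n ∈ N, ∃ c : ℂ, ρ n v = c • v := by
      intro n hn'
      obtain ⟨u, hu, rfl⟩ := hle hn'
      exact heig u hu
    have hfix := fixed_of_eigen ρ N hN v he
    have hsup : N ⊔ H' = ⊤ := hc.2 _ (lt_of_le_of_ne le_sup_right fun h => hn (by
      rw [h]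
      exact le_sup_left))
    have hconst : ∀ x : Q ⧸ H', (v : (Q ⧸ H') → ℂ) x = (v : (Q ⧸ H') → ℂ) o := by
      intro x
      obtain ⟨g, rfl⟩ := QuotientGroup.mk_surjective x
      have hg : g ∈ ((N ⊔ H' : Subgroup Q) : Set Q) := by
        rw [hsup]
        trivial
      rw [Subgroup.normal_mul] at hg
      obtain ⟨n, hn', h, hh, rfl⟩ := Set.mem_mul.1 hg
      have h1 : ((n * h : Q) : Q ⧸ H') = n • o := by
        rw [ho, MulAction.Quotient.smul_mk, smul_eq_mul, mul_one]
        exact QuotientGroup.eq.2 (by simpa using H'.inv_mem hh)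
      rw [h1]
      have h2 := congrArg Subtype.val (hfix n⁻¹ (N.inv_mem hn'))
      have h3 := congrFun h2 o
      rw [hρ, sub_coe, perm_apply, inv_inv] at h3
      exact h3
    have hvE := hVE v.2
    rw [hEmem, Finset.sum_congr rfl fun x _ => hconst x, Finset.sum_const, Finset.card_univ,
      nsmul_eq_mul] at hvE
    have hv0 : (v : (Q ⧸ H') → ℂ) o = 0 := by
      rcases mul_eq_zero.1 hvE with h | h
      · exact absurd h hh0
      · exact h
    apply hv
    apply Subtype.ext
    funext x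
    rw [hconst x, hv0]
    rfl
  -- a maximal subgroup above `U.map π`
  obtain h | ⟨M, hM, hUM⟩ := eq_top_or_exists_le_coatom (U.map π)
  · exact absurd (h ▸ le_top) hNU
  have hMi : M.index ≤ (U.map π).index := Subgroup.index_antitone hUM
  have hNM : N ≤ M := by
    by_contra hcon
    exact hmin M ⟨hM, hcon⟩ (show M.index < H'.index by omega)
  have hsupM : U.map π ⊔ N ≤ M := sup_le hUM hNM
  have h2 : 2 ≤ (U.map π ⊔ N).index := by
    have h0 : (U.map π ⊔ N).index ≠ 0 := Subgroup.index_ne_zero_of_finite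
    have h1 : (U.map π ⊔ N).index ≠ 1 := by
      intro h
      rw [Subgroup.index_eq_one] at h
      rw [h] at hsupM
      exact hM.1 (top_le_iff.1 hsupM)
    omega
  have h3 : m ≤ (U.map π).relIndex (U.map π ⊔ N) := by
    have h4 : U.map π ⊓ N < N := lt_of_le_of_ne inf_le_right fun h => hNU (by
      rw [← h]
      exact inf_le_left)
    have h5 := hm _ h4
    rw [Subgroup.inf_relIndex_right] at h5
    refine h5.trans (Subgroup.relIndex_le_of_le_right le_sup_right ?_)
    show ((U.map π).subgroupOf (U.map π ⊔ N)).index ≠ 0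
    exact Subgroup.index_ne_zero_of_finite
  have h6 := Subgroup.relIndex_mul_index (le_sup_left : U.map π ≤ U.map π ⊔ N)
  have h7 : m * 2 ≤ (U.map π).index := by
    rw [← h6]
    exact Nat.mul_le_mul h3 h2
  show 2 * m < H'.index
  omega

end Pool.Agent.K1H12.PC
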